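import Pool.Agent.Lib.NSW91.Alg
import Pool.Agent.Lib.Szpiro98.Blue5

/-! A large prime factor of the cyclotomic values of a Lehmer pair, from the local bounds. -/

set_option autoImplicit false

open Finset Filter Asymptotics

namespace Pool.Agent.Lib.NSW91
open Pool.Agent.Szpiro98

/-- growth of exponent at most `θ` -/
def Gr (f : ℕ → ℝ) (θ : ℝ) : Prop :=
  ∀ ε : ℝ, 0 < ε → f =O[atTop] fun n : ℕ => (n : ℝ) ^ (θ + ε)

namespace Gr
variable {f g : ℕ → ℝ} {θ θ' : ℝ}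

lemma rpow_O (h : θ ≤ θ') : (fun n : ℕ => (n : ℝ) ^ θ) =O[atTop] fun n : ℕ => (n : ℝ) ^ θ' :=
  IsBigO.of_bound' <| (eventually_ge_atTop 1).mono fun n hn => by
    rw [Real.norm_of_nonneg (by positivity), Real.norm_of_nonneg (by positivity)]
    exact Real.rpow_le_rpow_of_exponent_le (by exact_mod_cast hn) h

lemma rpow (θ : ℝ) : Gr (fun n => (n : ℝ) ^ θ) θ := fun _ hε => rpow_O (by linarith)

lemma mono (h : Gr f θ) (e : θ ≤ θ') : Gr f θ' := fun ε hε => (h ε hε).trans (rpow_O (by linarith))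

lemma const (c : ℝ) : Gr (fun _ => c) 0 := fun ε hε =>
  (isBigO_const_const c one_ne_zero _).trans (by simpa using rpow 0 ε hε)

lemma log : Gr (fun n => Real.log n) 0 := fun ε hε => by
  rw [zero_add]
  exact ((isLittleO_log_rpow_atTop hε).comp_tendsto tendsto_natCast_atTop_atTop).isBigO

lemma add (h : Gr f θ) (h' : Gr g θ) : Gr (fun n => f n + g n) θ := fun ε hε =>
  (h ε hε).add (h' ε hε)

lemma mul (h : Gr f θ) (h' : Gr g θ') : Gr (fun n => f n * g n) (θ + θ') := fun ε hε =>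
  ((h _ (half_pos hε)).mul (h' _ (half_pos hε))).trans <| EventuallyEq.isBigO <|
    (eventually_gt_atTop 0).mono fun n hn => by
      beta_reduce
      rw [← Real.rpow_add (by exact_mod_cast hn)]
      congr 1
      ring

lemma mul0 (h : Gr f 0) (h' : Gr g θ) : Gr (fun n => f n * g n) θ := by simpa using h.mul h'

lemma mul0' (h : Gr f θ) (h' : Gr g 0) : Gr (fun n => f n * g n) θ := by simpa using h.mul h'

lemma pow (h : Gr f 0) (k : ℕ) : Gr (fun n => f n ^ k) 0 := by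
  induction k with
  | zero => simpa using const 1
  | succ k ih => simpa [pow_succ] using ih.mul0 h

lemma loglin {L : ℝ} (hL : 0 < L) : Gr (fun n => Real.log (3 + 2 * n * L)) 0 := fun ε hε =>
  IsBigO.trans (IsBigO.of_bound' <| (eventually_ge_atTop 1).mono fun n hn => by
    have n1 : (1 : ℝ) ≤ n := by exact_mod_cast hn
    have a := Real.log_nonneg n1
    have b := Real.log_nonneg (show 1 ≤ 3 + 2 * L by linarith)
    rw [Real.norm_of_nonneg (Real.log_nonneg (by nlinarith)), Real.norm_of_nonneg (by linarith),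
      ← Real.log_mul (by linarith) (by linarith)]
    exact Real.log_le_log (by positivity) (by nlinarith))
    ((const (Real.log (3 + 2 * L))).add log ε hε)

lemma lt (h : Gr f θ) (e : θ < 1) {c : ℝ} (hc : 0 < c) : ∀ᶠ n : ℕ in atTop, f n < n * c := by
  have t := ((isLittleO_one_iff ℝ).2 ((tendsto_rpow_neg_atTop (show 0 < (1 - θ) / 2 by linarith)).comp
    (tendsto_natCast_atTop_atTop (R := ℝ)))).mul_isBigO (isBigO_refl (fun n : ℕ => (n : ℝ)) atTop)
  have a := (h ((1 - θ) / 2) (by linarith)).trans_isLittleO (EventuallyEq.trans_isLittleO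
    ((eventually_gt_atTop 0).mono fun n hn => by
      simp only [Function.comp]
      rw [← Real.rpow_add_one (by positivity)]
      congr 1
      ring) t)
  filter_upwards [a.bound (half_pos hc), eventually_gt_atTop 0] with n h1 h2
  have n0 : (0 : ℝ) < n := by exact_mod_cast h2
  simp only [one_mul, Real.norm_eq_abs, abs_of_pos n0] at h1
  nlinarith [le_abs_self (f n), mul_pos hc n0]

end Gr

lemma bnd_le {C δ : ℝ} (hC : 1 ≤ C) (δ1 : δ ≤ 1) (S : Finset ℕ) (D0 : ℝ) : ∃ K : ℝ, 0 ≤ K ∧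
    ∀ D κ Z 𝓛 : ℝ, 1 ≤ D → D ≤ D0 → 1 ≤ κ → κ ≤ Z → 1 ≤ 𝓛 → V4.bnd C δ S D κ 𝓛 ≤
      K * ((1 + Real.log Z) ^ (5 * (S.card + 1)) * Z ^ (1 - δ)) * Real.log 𝓛 ^ 3 := by
  have P0 : 0 ≤ ∏ q ∈ S, C * Real.log q ^ 3 :=
    prod_nonneg fun q _ => mul_nonneg (by linarith) (pow_nonneg (Real.log_natCast_nonneg q) 3)
  refine ⟨C * (∏ q ∈ S, C * Real.log q ^ 3) * (√D0 * (1 + Real.log D0) ^ 4) *
    (C * D0 ^ 4 * (S.card + 1) ^ (5 * (S.card + 1))), by positivity, ?_⟩
  intro D κ Z 𝓛 D1 D2 κ1 κZ h𝓛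
  have l0 := Real.log_nonneg κ1
  have l1 := Real.log_le_log (by linarith) κZ
  have l2 := Real.log_nonneg h𝓛
  have l3 := Real.log_nonneg D1
  have l4 := Real.log_le_log (by linarith) D2
  have l5 := l0.trans l1
  have e1 : κ * min 1 (V4.sv C δ S D κ) ≤ C * D0 ^ 4 * (S.card + 1) ^ (5 * (S.card + 1)) *
      ((1 + Real.log Z) ^ (5 * (S.card + 1)) * Z ^ (1 - δ)) := by
    refine (mul_le_mul_of_nonneg_left (min_le_right _ _) (by linarith)).trans ?_
    have h1 : κ ^ (1 - δ) ≤ Z ^ (1 - δ) := Real.rpow_le_rpow (by linarith) κZ (by linarith)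
    rw [Real.rpow_sub (by linarith), Real.rpow_one] at h1
    have h2 : κ * V4.sv C δ S D κ = C * D ^ 4 * (S.card + 1) ^ (5 * (S.card + 1)) *
        ((1 + Real.log κ) ^ (5 * (S.card + 1)) * (κ / κ ^ δ)) := by
      rw [V4.sv, mul_pow]
      ring
    rw [h2]
    gcongr
  have e0 : 0 ≤ κ * min 1 (V4.sv C δ S D κ) := by
    refine mul_nonneg (by linarith) (le_min zero_le_one ?_)
    rw [V4.sv]; positivity
  simp only [V4.bnd, Szpiro98.bnd]
  refine mul_le_mul_of_nonneg_right ?_ (by positivity)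
  rw [mul_assoc _ (C * D0 ^ 4 * _)]
  gcongr

lemma ker_le {d Δ U : ℤ} (hd : d ≠ 0) (h0 : Δ * U ^ 2 ≠ 0) (h : V5.Ker d (Δ * U ^ 2)) :
    |(d : ℝ)| ≤ 8 * |(Δ : ℝ)| := by
  have a := left_ne_zero_of_mul h0
  have b := right_ne_zero_of_mul h0
  have h1 : d.natAbs ∣ 2 ^ 3 * Δ.natAbs := by
    rw [← Nat.factorization_prime_le_iff_dvd (Int.natAbs_ne_zero.mpr hd) (by positivity)]
    intro p hp
    have : Fact p.Prime := ⟨hp⟩
    obtain ⟨c1, c2⟩ := h p hp
    rw [padicValInt.mul a b, sq, padicValInt.mul (by simpa using b) (by simpa using b)] at c2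
    rw [Nat.factorization_mul (by norm_num) (by positivity), Nat.prime_two.factorization_pow,
      Finsupp.add_apply, Nat.factorization_def _ hp, Nat.factorization_def _ hp]
    simp only [padicValInt] at c1 c2
    rcases eq_or_ne p 2 with rfl | e
    · simp only [Finsupp.single_eq_same]; omega
    · have := c2 e; omega
  have h3 : ((d.natAbs : ℕ) : ℝ) ≤ (2 ^ 3 * Δ.natAbs : ℕ) := by
    exact_mod_cast Nat.le_of_dvd (by positivity) h1
  push_cast [Nat.cast_natAbs] at h3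
  linarith

variable {α β : ℂ} {T Q : ℤ}

lemma quad_use {C δ : ℝ} (hC : 1 ≤ C) (δ1 : δ ≤ 1) (hq : V5.Quad3 (V4.bnd C δ)) (h : Pair α β T Q)
    (hc : IsCoprime T Q) (hQ : Q ≠ 0) : ∃ (K : ℝ) (a : ℕ), 0 ≤ K ∧ ∀ (j : ℕ) (𝓛 : ℝ), 0 < j →
    3 + 2 * j * Real.log (max ‖α‖ ‖β‖) ≤ 𝓛 →
    |Real.log ‖α ^ j - β ^ j‖ - j * Real.log (max ‖α‖ ‖β‖)| ≤ K * Real.log 𝓛 ^ 3 + 3 ∧
    ∃ U : ℤ, α ^ (2 * j) - β ^ (2 * j) = (α ^ 2 - β ^ 2) * U ∧ U ≠ 0 ∧
      ∀ (q : ℕ) (Z : ℝ), q.Prime → q ≤ Z → U.natAbs.factorization q * Real.log q ≤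
        8 * Real.log Z + 2 * (K * ((1 + Real.log Z) ^ a * Z ^ (1 - δ)) * Real.log 𝓛 ^ 3) := by
  obtain ⟨K, K0, hK⟩ := bnd_le hC δ1 Q.natAbs.primeFactors (8 * |((T ^ 2 - 4 * Q ^ 2 : ℤ) : ℝ)|)
  refine ⟨K, 5 * (Q.natAbs.primeFactors.card + 1), K0, fun j 𝓛 hj hL => ?_⟩
  have M1 := h.one_lt hQ
  set M := max ‖α‖ ‖β‖ with hM
  have L0 := Real.log_pos M1
  have j0 : (0 : ℝ) < j := by exact_mod_cast hj
  have jL := mul_pos j0 L0
  have pm : ∀ k : ℕ, ‖α ^ k + β ^ k‖ ≤ 2 * M ^ k ∧ ‖α ^ k - β ^ k‖ ≤ 2 * M ^ k := fun k => by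
    have a : ‖α ^ k‖ ≤ M ^ k := by
      rw [norm_pow]; exact pow_le_pow_left₀ (norm_nonneg _) (le_max_left _ _) k
    have b : ‖β ^ k‖ ≤ M ^ k := by
      rw [norm_pow]; exact pow_le_pow_left₀ (norm_nonneg _) (le_max_right _ _) k
    exact ⟨(norm_add_le _ _).trans (by linarith), (norm_sub_le _ _).trans (by linarith)⟩
  obtain ⟨U, hU⟩ := h.even j
  obtain ⟨A, hA⟩ := h.plus j
  rw [one_mul] at hA
  obtain ⟨c, hc'⟩ : ∃ c : ℤ, c = (T ^ 2 - 4 * Q ^ 2) * U ^ 2 := ⟨_, rfl⟩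
  have ec : (c : ℂ) = (α ^ (2 * j) - β ^ (2 * j)) ^ 2 := by
    rw [hU, hc']; push_cast; rw [← h.tr, ← h.nm]; ring
  have n2 := sub_ne_zero.2 (h.ne (2 * j) (by omega))
  have c0 : c ≠ 0 := fun e => pow_ne_zero 2 n2 (by rw [← ec, e, Int.cast_zero])
  have ac : |(c : ℝ)| = ‖α ^ (2 * j) - β ^ (2 * j)‖ ^ 2 := by
    rw [← Complex.norm_intCast, ec, norm_pow]
  have aA : |(A : ℝ)| = ‖α ^ (2 * j) + β ^ (2 * j)‖ := by rw [← Complex.norm_intCast, hA]
  have eM : M ^ (2 * j) = Real.exp (2 * j * Real.log M) := by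
    rw [← Real.exp_log (show 0 < M ^ (2 * j) by positivity), Real.log_pow]; push_cast; rfl
  have e4 : 4 * M ^ (2 * j) ≤ Real.exp 𝓛 := by
    have a := Real.exp_le_exp.2 hL
    rw [Real.exp_add, ← eM] at a
    nlinarith [Real.add_one_le_exp (3 : ℝ), show 0 < M ^ (2 * j) by positivity]
  obtain ⟨d, d0, d1, d2, d3⟩ := hq A (Q ^ (2 * j)) c Q.natAbs.primeFactors 𝓛 (by
      have : (c : ℂ) = A ^ 2 - 4 * Q ^ (2 * j) := by rw [ec, ← hA, ← h.nm]; ring
      exact_mod_cast this) c0 (pow_ne_zero _ hQ)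
    (fun p hp ⟨a, b⟩ => h.not_dvd hc hp (show 0 < 2 * j by omega) hA
      ⟨(dvd_pow_self _ (by norm_num)).trans a, (Nat.prime_iff_prime_int.1 hp).dvd_of_dvd_pow
        ((dvd_pow_self _ (by norm_num)).trans b)⟩)
    (fun q hq => Nat.prime_of_mem_primeFactors hq)
    (by rw [Int.natAbs_pow, Nat.primeFactors_pow _ (by omega)]) (by linarith)
    (by rw [ac, aA, Real.sqrt_sq (norm_nonneg _)]; linarith [pm (2 * j)])
  have d8 := ker_le d0 (hc' ▸ c0) (hc' ▸ d1)
  have d9 : (1 : ℝ) ≤ |(d : ℝ)| := by exact_mod_cast Int.one_le_abs d0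
  have c1 : (1 : ℝ) ≤ |(c : ℝ)| := by exact_mod_cast Int.one_le_abs c0
  have lc := Real.log_nonneg c1
  have l2 := Real.log_two_lt_d9
  refine ⟨?_, U, hU, fun e => c0 (by rw [hc', e]; simp), fun q Z hq hZ => ?_⟩
  · have b := hK _ 1 1 𝓛 d9 d8 le_rfl le_rfl (by linarith)
    rw [Real.log_one, add_zero, one_pow, Real.one_rpow, mul_one, mul_one] at b
    have b0 := V4.bnd_one_nonneg hC δ Q.natAbs.primeFactors |(d : ℝ)| (show 1 ≤ 𝓛 by linarith)
    have n1 := norm_pos_iff.2 (sub_ne_zero.2 (h.ne j hj))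
    have u1 : Real.log ‖α ^ j - β ^ j‖ ≤ Real.log 2 + j * Real.log M := by
      rw [← Real.log_pow, ← Real.log_mul (by norm_num) (by positivity)]
      exact Real.log_le_log n1 (pm j).2
    have u2 : Real.log |(c : ℝ)| ≤
        2 * (Real.log ‖α ^ j - β ^ j‖ + (Real.log 2 + j * Real.log M)) := by
      rw [ac, Real.log_pow, ← Real.log_pow M, ← Real.log_mul (by norm_num) (by positivity),
        ← Real.log_mul n1.ne' (by positivity)]
      refine mul_le_mul_of_nonneg_left (Real.log_le_log (norm_pos_iff.2 n2) ?_) (by norm_num)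
      rw [show α ^ (2 * j) - β ^ (2 * j) = (α ^ j - β ^ j) * (α ^ j + β ^ j) by ring, norm_mul]
      exact mul_le_mul_of_nonneg_left (pm j).1 n1.le
    have u3 : 4 * (j * Real.log M) ≤ 2 * Real.log 2 + Real.log |(c : ℝ)| +
        2 * V4.bnd C δ Q.natAbs.primeFactors |(d : ℝ)| 1 𝓛 + 2 := by
      by_cases hb : V4.bnd C δ Q.natAbs.primeFactors |(d : ℝ)| 1 𝓛 < 𝓛
      · have k1 := d2 hb
        set m := max ((A : ℝ) ^ 2) |((Q ^ (2 * j) : ℤ) : ℝ)| with hm
        have k2 : ∀ x : ℂ, x ^ 2 = A * x - (Q ^ (2 * j) : ℤ) → ‖x‖ ^ 2 ≤ 4 * m := fun x hx => by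
          have a := congrArg norm hx
          have b := norm_sub_le (A * x) ((Q ^ (2 * j) : ℤ) : ℂ)
          rw [norm_mul, Complex.norm_intCast, Complex.norm_intCast, ← a, norm_pow] at b
          have c1 : |(A : ℝ)| ^ 2 ≤ m := by rw [sq_abs]; exact le_max_left _ _
          have c2 : |((Q ^ (2 * j) : ℤ) : ℝ)| ≤ m := le_max_right _ _
          nlinarith [sq_nonneg (|(A : ℝ)| - ‖x‖ / 2), sq_nonneg |(A : ℝ)|]
        have k3 : (M ^ (2 * j)) ^ 2 ≤ 4 * m := by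
          rcases max_choice ‖α‖ ‖β‖ with e | e <;> rw [hM, e, ← norm_pow] <;> apply k2 <;>
            push_cast <;> rw [← hA, ← h.nm] <;> ring
        have k0 : 0 < (M ^ (2 * j)) ^ 2 := by positivity
        have k4 := Real.log_le_log k0 k3
        rw [Real.log_mul (by norm_num) (by linarith), Real.log_pow, Real.log_pow,
          show (4 : ℝ) = 2 ^ 2 by norm_num, Real.log_pow] at k4
        push_cast at k4
        linarith
      · linarith [not_lt.1 hb, Real.log_pos one_lt_two]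
    rw [abs_le]
    constructor <;> linarith
  · have : Fact q.Prime := ⟨hq⟩
    have q1 : (1 : ℝ) ≤ q := by exact_mod_cast hq.one_le
    have k : 1 ≤ kap q (padicValInt q c) ∧ kap q (padicValInt q c) ≤ Z := by
      unfold kap
      split_ifs
      exacts [⟨le_rfl, q1.trans hZ⟩, ⟨q1, hZ⟩]
    have b := hK _ _ Z 𝓛 d9 d8 k.1 k.2 (by linarith)
    have l1 := Real.log_le_log (by linarith) hZ
    have l3 := Real.log_nonneg q1
    have v1 : (U.natAbs.factorization q : ℝ) * Real.log q ≤ padicValInt q c * Real.log q := by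
      refine mul_le_mul_of_nonneg_right ?_ l3
      have a := left_ne_zero_of_mul (hc' ▸ c0)
      have b := right_ne_zero_of_mul (hc' ▸ c0)
      rw [Nat.factorization_def _ hq, hc', padicValInt.mul a b, sq U,
        padicValInt.mul (by simpa using b) (by simpa using b)]
      exact_mod_cast (by simp only [padicValInt]; omega)
    by_cases hb : V4.bnd C δ Q.natAbs.primeFactors |(d : ℝ)| (kap q (padicValInt q c)) 𝓛 < 𝓛
    · linarith [d3 q hq hb]
    · have h1 : ((q ^ padicValInt q c : ℕ) : ℝ) ≤ (c.natAbs : ℕ) := by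
        exact_mod_cast Nat.le_of_dvd (by positivity) pow_padicValNat_dvd
      have h2 : ((c.natAbs : ℕ) : ℝ) ≤ Real.exp 𝓛 ^ 2 := by
        rw [Nat.cast_natAbs, Int.cast_abs, ac]
        gcongr
        linarith [pm (2 * j), show 0 < M ^ (2 * j) by positivity]
      have h4 := Real.log_le_log (by exact_mod_cast pow_pos hq.pos _) (h1.trans h2)
      rw [Nat.cast_pow, Real.log_pow, Real.log_pow, Real.log_exp] at h4
      push_cast at h4
      linarith [not_lt.mp hb]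

lemma coprime_case {C δ : ℝ} (hC : 1 ≤ C) (δ0 : 0 < δ) (δ1 : δ ≤ 1) (hq : V5.Quad3 (V4.bnd C δ))
    (h : Pair α β T Q) (hc : IsCoprime T Q) (hQ : Q ≠ 0) : ∀ᶠ n : ℕ in atTop,
    ∃ (q : ℕ) (m : ℤ), q.Prime ∧ (n : ℝ) ^ (1 + δ / 3) < q ∧ cy α β n = q * m := by
  obtain ⟨K, a, K0, hK⟩ := quad_use hC δ1 hq h hc hQ
  have L0 := Real.log_pos (h.one_lt hQ)
  set L := Real.log (max ‖α‖ ‖β‖)
  have g3 := (Gr.loglin L0).pow 3
  have g1 : Gr (fun n => (2 * Real.log n + 1) * ((2 * Real.log n + 2 * (n : ℝ) ^ (δ / 3) + 4) *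
      (8 * ((1 + δ / 3) * Real.log n) + 2 * (K * ((1 + (1 + δ / 3) * Real.log n) ^ a *
        (n : ℝ) ^ ((1 + δ / 3) * (1 - δ))) * Real.log (3 + 2 * n * L) ^ 3)) +
      2 * (n : ℝ) ^ (1 / 2 : ℝ) * (K * Real.log (3 + 2 * n * L) ^ 3 + 3))) (1 - δ / 3) := by
    have l1 := fun c => (Gr.const c).mul0 Gr.log
    refine ((l1 _).add (Gr.const _)).mul0 (Gr.add ?_ ?_)
    · refine (Gr.mul (θ := δ / 3) (θ' := (1 + δ / 3) * (1 - δ)) ?_ ?_).mono (by nlinarith)
      · exact (((l1 _).mono (by linarith)).add ((Gr.const _).mul0 (Gr.rpow _))).add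
          ((Gr.const _).mono (by linarith))
      · exact (((Gr.const _).mul0 (l1 _)).mono (by nlinarith)).add ((Gr.const _).mul0
          (((Gr.const _).mul0 ((((Gr.const _).add (l1 _)).pow _).mul0 (Gr.rpow _))).mul0' g3))
    · exact (((Gr.const _).mul0 (Gr.rpow _)).mul0'
        (((Gr.const _).mul0 g3).add (Gr.const _))).mono (by linarith)
  filter_upwards [g1.lt (by linarith) L0, eventually_ge_atTop 3] with n h1 n3
  by_contra! H
  have n0 : (0 : ℝ) < n := by exact_mod_cast (by omega : 0 < n)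
  have n1 : (1 : ℝ) ≤ n := by exact_mod_cast (by omega : 1 ≤ n)
  obtain ⟨m, hm⟩ := h.cy_int n n3
  have m0 : m ≠ 0 := fun e => h.cy_ne (by omega : 0 < n) (by rw [hm, e, Int.cast_zero])
  have hZ : ∀ q ∈ m.natAbs.primeFactors, (q : ℝ) ≤ (n : ℝ) ^ (1 + δ / 3) := fun q hq => by
    obtain ⟨t, ht⟩ := Int.natCast_dvd.2 (Nat.dvd_of_mem_primeFactors hq)
    by_contra! hlt
    exact H q t (Nat.prime_of_mem_primeFactors hq) hlt (by rw [hm, ht]; push_cast; rfl)
  obtain ⟨-, U, hU, U0, hv⟩ := hK n _ (by omega) le_rfl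
  have dv := Int.natAbs_dvd_natAbs.2 (h.cy_dvd n3 hm hU)
  have lo := h.log_cy L (by omega : 0 < n) (B := K * Real.log (3 + 2 * n * L) ^ 3 + 3) fun j hj =>
    (hK j _ (Nat.pos_of_dvd_of_pos hj (by omega)) (by
      have : (j : ℝ) ≤ n := by exact_mod_cast Nat.le_of_dvd (by omega) hj
      nlinarith)).1
  have ll : 0 ≤ Real.log (3 + 2 * n * L) := Real.log_nonneg (by nlinarith)
  have ln := Real.log_nonneg n1
  set B := 8 * ((1 + δ / 3) * Real.log n) + 2 * (K * ((1 + (1 + δ / 3) * Real.log n) ^ a *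
    (n : ℝ) ^ ((1 + δ / 3) * (1 - δ))) * Real.log (3 + 2 * n * L) ^ 3) with hB
  have B0 : 0 ≤ B := by positivity
  have h3 : Real.log m.natAbs ≤ m.natAbs.primeFactors.card * B := by
    rw [Real.log_nat_eq_sum_factorization, Finsupp.sum, Nat.support_factorization, ← nsmul_eq_mul]
    refine sum_le_card_nsmul _ _ _ fun q hq => ?_
    have := hv q _ (Nat.prime_of_mem_primeFactors hq) (hZ q hq)
    rw [Real.log_rpow n0, ← Real.rpow_mul n0.le] at this
    refine le_trans (mul_le_mul_of_nonneg_right ?_ (Real.log_natCast_nonneg q)) this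
    exact_mod_cast (Nat.factorization_le_iff_dvd (by positivity) (by positivity)).mpr dv q
  have h4 := NSW77.card_le (n := n) (A := m.natAbs) (Y := (n : ℝ) ^ (δ / 3)) (by omega)
    (by positivity) fun q hq => by
      have hp := Nat.prime_of_mem_primeFactors hq
      refine ⟨?_, or_iff_not_imp_left.mpr (h.prime_cy hc hp (by omega) hm
        (Int.natCast_dvd.2 (Nat.dvd_of_mem_primeFactors hq)))⟩
      have := hZ q hq
      rwa [add_comm, Real.rpow_add n0, Real.rpow_one] at this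
  have h5 := card_div n
  rw [Real.sqrt_eq_rpow] at h5
  rw [hm, Complex.norm_intCast, ← Int.cast_abs, ← Nat.cast_natAbs] at lo
  have h6 := mul_le_mul_of_nonneg_right h4 B0
  have h7 := mul_le_mul_of_nonneg_right h5
    (show 0 ≤ K * Real.log (3 + 2 * n * L) ^ 3 + 3 by positivity)
  have h8 := mul_le_mul_of_nonneg_right (NSW77.le_phi (Q := n) (by omega)) L0.le
  rw [mul_assoc] at h8
  exact absurd (h8.trans (mul_le_mul_of_nonneg_left (by linarith) (by positivity))) (not_le.2 h1)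

theorem stewart {C δ : ℝ} (hC : 1 ≤ C) (δ0 : 0 < δ) (δ1 : δ ≤ 1) (hq : V5.Quad3 (V4.bnd C δ))
    (α β : ℂ) (R Q : ℤ) (hR : (α + β) ^ 2 = R) (hQ : α * β = Q) (Q0 : Q ≠ 0)
    (hu : ∀ k : ℕ, 0 < k → (α / β) ^ k ≠ 1) : ∃ N : ℕ, ∀ n : ℕ, N ≤ n → ∃ (q : ℕ) (m : ℤ),
      q.Prime ∧ (n : ℝ) ^ (1 + δ / 3) < q ∧ ∏ ζ ∈ primitiveRoots n ℂ, (α - ζ * β) = q * m := by
  have b0 : β ≠ 0 := by
    rintro rfl
    exact Q0 (by exact_mod_cast (hQ.symm.trans (mul_zero α)))
  obtain ⟨R', Q', hc, e1, e2⟩ := Int.exists_gcd_one (Int.gcd_pos_of_ne_zero_right R Q0)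
  generalize hg : Int.gcd R Q = g at e1 e2
  have g0 : (g : ℂ) ≠ 0 := by
    rw [← hg]; exact_mod_cast (Int.gcd_pos_of_ne_zero_right R Q0).ne'
  obtain ⟨s, hs⟩ := IsAlgClosed.exists_pow_nat_eq (g : ℂ) two_pos
  have s0 : s ≠ 0 := fun e => g0 (by rw [← hs, e]; simp)
  have a1 : (R : ℂ) = R' * s ^ 2 := by rw [e1, hs]; push_cast; rfl
  have a2 : (Q : ℂ) = Q' * s ^ 2 := by rw [e2, hs]; push_cast; rfl
  have P : Pair (α / s) (β / s) (R' - 2 * Q') Q' :=
    ⟨by push_cast; field_simp; linear_combination hR - 2 * hQ + a1 - 2 * a2,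
      by field_simp; linear_combination hQ + a2, fun k hk e => hu k hk (by
        rw [div_pow, div_pow, div_left_inj' (pow_ne_zero _ s0)] at e
        rw [div_pow, e, div_self (pow_ne_zero _ b0)])⟩
  have hc' : IsCoprime (R' - 2 * Q') Q' := by
    simpa [sub_eq_add_neg] using (Int.isCoprime_iff_gcd_eq_one.2 hc).add_mul_right_left (-2)
  obtain ⟨N, hN⟩ := eventually_atTop.1 ((coprime_case hC δ0 δ1 hq P hc'
    (fun e => Q0 (by rw [e2, e, zero_mul]))).and (eventually_ge_atTop 3))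
  refine ⟨N, fun n hn => ?_⟩
  obtain ⟨⟨q, m, q1, q2, q3⟩, n3⟩ := hN n hn
  obtain ⟨t, ht⟩ := Nat.totient_even (show 2 < n by omega)
  refine ⟨q, m * g ^ t, q1, q2, ?_⟩
  have e : ∏ ζ ∈ primitiveRoots n ℂ, (α - ζ * β) =
      ∏ ζ ∈ primitiveRoots n ℂ, (s * (α / s - ζ * (β / s))) :=
    prod_congr rfl fun ζ _ => by field_simp
  rw [e, prod_mul_distrib, prod_const, Complex.card_primitiveRoots, ht, ← two_mul, pow_mul, hs]
  rw [cy] at q3
  rw [q3]
  push_cast
  ring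

end Pool.Agent.Lib.NSW91
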