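import Pool.Agent.Lib.NSW77.Elem

/-! Homogeneous cyclotomic values of a Lehmer pair: integrality, prime factors, size. -/

set_option autoImplicit false

open Polynomial Finset

namespace Pool.Agent.Lib.NSW91

/-- the homogeneous cyclotomic value -/
noncomputable def cy (α β : ℂ) (n : ℕ) : ℂ := ∏ ζ ∈ primitiveRoots n ℂ, (α - ζ * β)

/-- a nondegenerate pair -/
structure Pair (α β : ℂ) (T Q : ℤ) : Prop where
  tr : α ^ 2 + β ^ 2 = T
  nm : α * β = Q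
  ne : ∀ k : ℕ, 0 < k → α ^ k ≠ β ^ k

variable {α β : ℂ} {T Q : ℤ}

lemma prod_cy (α β : ℂ) {n : ℕ} (hn : 0 < n) : ∏ d ∈ n.divisors, cy α β d = α ^ n - β ^ n := by
  classical
  rw [(Complex.isPrimitiveRoot_exp n hn.ne').pow_sub_pow_eq_prod_sub_mul α β hn,
    IsPrimitiveRoot.nthRoots_one_eq_biUnion_primitiveRoots, prod_biUnion]
  · rfl
  · exact fun a _ b _ h => IsPrimitiveRoot.disjoint h

lemma rec_int (c : ℂ) (s : ℕ → ℂ) (T B : ℤ) (h : ∀ k, s (k + 2) = T * s (k + 1) - B * s k)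
    (h0 : ∃ w : ℤ, s 0 = c * w) (h1 : ∃ w : ℤ, s 1 = c * w) (k : ℕ) : ∃ w : ℤ, s k = c * w := by
  induction k using Nat.twoStepInduction with
  | zero => exact h0
  | one => exact h1
  | more k a b =>
    obtain ⟨u, hu⟩ := a
    obtain ⟨v, hv⟩ := b
    exact ⟨T * v - B * u, by rw [h, hu, hv]; push_cast; ring⟩

lemma prod_int (s : Finset ℕ) (f : ℕ → ℂ) (h : ∀ d ∈ s, ∃ m : ℤ, f d = m) :
    ∃ w : ℤ, ∏ d ∈ s, f d = w :=
  prod_induction f (fun z => ∃ m : ℤ, z = m)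
    (by rintro _ _ ⟨a, rfl⟩ ⟨b, rfl⟩; exact ⟨a * b, by push_cast; rfl⟩) ⟨1, by simp⟩ h

namespace Pair

lemma odd (h : Pair α β T Q) (k : ℕ) : ∃ w : ℤ, α ^ (2 * k + 1) - β ^ (2 * k + 1) = (α - β) * w :=
  rec_int _ (fun k => α ^ (2 * k + 1) - β ^ (2 * k + 1)) T (Q ^ 2)
    (fun k => by push_cast; rw [← h.tr, ← h.nm]; ring) ⟨1, by simp⟩
    ⟨T + Q, by push_cast; rw [← h.tr, ← h.nm]; ring⟩ k

lemma even (h : Pair α β T Q) (k : ℕ) : ∃ w : ℤ, α ^ (2 * k) - β ^ (2 * k) = (α ^ 2 - β ^ 2) * w :=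
  rec_int _ (fun k => α ^ (2 * k) - β ^ (2 * k)) T (Q ^ 2)
    (fun k => by push_cast; rw [← h.tr, ← h.nm]; ring) ⟨0, by simp⟩ ⟨1, by simp⟩ k

lemma plus (h : Pair α β T Q) (k : ℕ) : ∃ w : ℤ, α ^ (2 * k) + β ^ (2 * k) = 1 * w :=
  rec_int _ (fun k => α ^ (2 * k) + β ^ (2 * k)) T (Q ^ 2)
    (fun k => by push_cast; rw [← h.tr, ← h.nm]; ring) ⟨2, by norm_num⟩ ⟨T, by simpa using h.tr⟩ k

lemma cy_ne (h : Pair α β T Q) {n : ℕ} (hn : 0 < n) : cy α β n ≠ 0 := fun e =>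
  h.ne n hn (sub_eq_zero.1 ((prod_cy α β hn).symm.trans
    (prod_eq_zero (Nat.mem_divisors_self n hn.ne') e)))

lemma split_even (α β : ℂ) {k : ℕ} (hk : 0 < k) : α ^ (2 * k) - β ^ (2 * k) =
    (α ^ 2 - β ^ 2) * ∏ d ∈ (2 * k).divisors with 3 ≤ d, cy α β d := by
  rw [← prod_cy α β (by omega), ← prod_cy α β two_pos, mul_comm (∏ d ∈ _, _),
    ← prod_filter_mul_prod_filter_not _ (fun d => 3 ≤ d)]
  congr 2
  ext d
  simp only [mem_filter, Nat.mem_divisors, not_le]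
  refine ⟨fun ⟨⟨a, _⟩, c⟩ => ?_, fun ⟨a, _⟩ => ⟨⟨a.trans (dvd_mul_right _ _), by omega⟩, ?_⟩⟩
  · interval_cases d <;> omega
  · have := Nat.le_of_dvd two_pos a
    omega

lemma split_odd (α β : ℂ) (k : ℕ) : α ^ (2 * k + 1) - β ^ (2 * k + 1) =
    (α ^ 1 - β ^ 1) * ∏ d ∈ (2 * k + 1).divisors with 3 ≤ d, cy α β d := by
  rw [← prod_cy α β (by omega), ← prod_cy α β one_pos, mul_comm (∏ d ∈ _, _),
    ← prod_filter_mul_prod_filter_not _ (fun d => 3 ≤ d)]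
  congr 2
  ext d
  simp only [mem_filter, Nat.mem_divisors, not_le]
  refine ⟨fun ⟨⟨a, _⟩, c⟩ => ?_, fun ⟨a, _⟩ => ⟨⟨a.trans (one_dvd _), by omega⟩, ?_⟩⟩
  · interval_cases d <;> omega
  · have := Nat.le_of_dvd one_pos a
    omega

lemma big (h : Pair α β T Q) {n : ℕ} (hn : 0 < n) :
    ∃ w : ℤ, ∏ d ∈ n.divisors with 3 ≤ d, cy α β d = w := by
  rcases Nat.even_or_odd' n with ⟨k, rfl | rfl⟩
  · obtain ⟨w, hw⟩ := h.even k
    rw [split_even α β (by omega)] at hw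
    exact ⟨w, mul_left_cancel₀ (sub_ne_zero.2 (h.ne 2 two_pos)) hw⟩
  · obtain ⟨w, hw⟩ := h.odd k
    rw [split_odd α β k, pow_one, pow_one] at hw
    exact ⟨w, mul_left_cancel₀ (sub_ne_zero.2 (by simpa using h.ne 1 one_pos)) hw⟩

lemma int_l (h : Pair α β T Q) : IsIntegral ℤ α :=
  ⟨X ^ 4 - C T * X ^ 2 + C (Q ^ 2), by monicity!, by
    rw [eval₂_add, eval₂_sub, eval₂_mul, eval₂_pow, eval₂_pow, eval₂_X, eval₂_C, eval₂_C,
      eq_intCast, eq_intCast, Int.cast_pow, ← h.tr, ← h.nm]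
    ring⟩

lemma symm (h : Pair α β T Q) : Pair β α T Q :=
  ⟨by rw [← h.tr, add_comm], by rw [← h.nm, mul_comm], fun k hk e => h.ne k hk e.symm⟩

lemma int_root {n : ℕ} (hn : 0 < n) {ζ : ℂ} (hζ : ζ ∈ primitiveRoots n ℂ) : IsIntegral ℤ ζ :=
  (isPrimitiveRoot_of_mem_primitiveRoots hζ).isIntegral hn

lemma cy_int (h : Pair α β T Q) (n : ℕ) : 3 ≤ n → ∃ m : ℤ, cy α β n = m := by
  induction n using Nat.strong_induction_on with
  | _ n ih =>
    intro hn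
    obtain ⟨w, hw⟩ := h.big (show 0 < n by omega)
    have hm : n ∈ n.divisors.filter (3 ≤ ·) :=
      mem_filter.2 ⟨Nat.mem_divisors_self n (by omega), hn⟩
    rw [← mul_prod_erase _ _ hm] at hw
    obtain ⟨v, hv⟩ := prod_int ((n.divisors.filter (3 ≤ ·)).erase n) (cy α β) fun d hd => by
      obtain ⟨a, b⟩ := mem_erase.1 hd
      obtain ⟨b, c⟩ := mem_filter.1 b
      exact ih d (lt_of_le_of_ne (Nat.divisor_le b) a) c
    have v0 : (v : ℂ) ≠ 0 := hv ▸ prod_ne_zero_iff.2 fun d hd =>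
      h.cy_ne (by have := (mem_filter.1 (mem_erase.1 hd).2).2; omega)
    have e : cy α β n = algebraMap ℚ ℂ ((w : ℚ) / v) := by
      rw [hv] at hw
      simp only [map_div₀, map_intCast]
      rw [eq_div_iff v0, hw]
    have i : IsIntegral ℤ (cy α β n) := IsIntegral.prod _ fun ζ hζ =>
      h.int_l.sub ((int_root (by omega) hζ).mul h.symm.int_l)
    rw [e, isIntegral_algebraMap_iff (algebraMap ℚ ℂ).injective] at i
    obtain ⟨m, hm⟩ := IsIntegrallyClosed.isIntegral_iff.1 i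
    exact ⟨m, by rw [e, ← hm]; simp⟩

lemma cy_dvd (h : Pair α β T Q) {n : ℕ} (hn : 3 ≤ n) {m U : ℤ} (hm : cy α β n = m)
    (hU : α ^ (2 * n) - β ^ (2 * n) = (α ^ 2 - β ^ 2) * U) : m ∣ U := by
  rw [split_even α β (by omega)] at hU
  have e := mul_left_cancel₀ (sub_ne_zero.2 (h.ne 2 two_pos)) hU
  have hn' : n ∈ (2 * n).divisors.filter (3 ≤ ·) :=
    mem_filter.2 ⟨Nat.mem_divisors.2 ⟨dvd_mul_left _ _, by omega⟩, hn⟩
  rw [← mul_prod_erase _ _ hn', hm] at e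
  obtain ⟨v, hv⟩ := prod_int (((2 * n).divisors.filter (3 ≤ ·)).erase n) (cy α β) fun d hd =>
    h.cy_int d (mem_filter.1 (mem_erase.1 hd).2).2
  rw [hv] at e
  exact ⟨v, by exact_mod_cast e.symm⟩

end Pair

/-- reduction modulo a prime above `q` -/
lemma red {q : ℕ} (hq : q.Prime) : ∃ (k : Type) (_ : Field k) (_ : CharP k q),
    Nonempty (integralClosure ℤ ℂ →+* k) := by
  have : (Ideal.span {(q : ℤ)}).IsMaximal :=
    PrincipalIdealRing.isMaximal_of_irreducible (Nat.prime_iff_prime_int.1 hq).irreducible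
  obtain ⟨P, hP, e⟩ := Ideal.exists_ideal_over_maximal_of_isIntegral (S := integralClosure ℤ ℂ)
    (Ideal.span {(q : ℤ)}) (by
      rw [(RingHom.injective_iff_ker_eq_bot (algebraMap ℤ (integralClosure ℤ ℂ))).1
        (RingHom.injective_int _)]
      exact bot_le)
  let _ := Ideal.Quotient.field P
  have : Fact q.Prime := ⟨hq⟩
  refine ⟨_ ⧸ P, inferInstance, (CharP.charP_iff_prime_eq_zero hq).2 ?_, ⟨Ideal.Quotient.mk P⟩⟩
  have : (q : ℤ) ∈ Ideal.comap (algebraMap ℤ (integralClosure ℤ ℂ)) P :=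
    e ▸ Ideal.mem_span_singleton_self _
  rw [← map_natCast (Ideal.Quotient.mk P), Ideal.Quotient.eq_zero_iff_mem]
  simpa using this

namespace Pair

/-- the images of the pair in characteristic `q` -/
lemma img (h : Pair α β T Q) (hc : IsCoprime T Q) {q : ℕ} (hq : q.Prime) :
    ∃ (k : Type) (_ : Field k) (_ : CharP k q) (f : integralClosure ℤ ℂ →+* k),
      ¬(f ⟨α, h.int_l⟩ = 0 ∧ f ⟨β, h.symm.int_l⟩ = 0) ∧
      f ⟨α, h.int_l⟩ ^ 2 + f ⟨β, h.symm.int_l⟩ ^ 2 = T ∧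
      f ⟨α, h.int_l⟩ * f ⟨β, h.symm.int_l⟩ = Q := by
  obtain ⟨k, _, _, ⟨f⟩⟩ := red hq
  have e1 : f ⟨α, h.int_l⟩ ^ 2 + f ⟨β, h.symm.int_l⟩ ^ 2 = T := by
    rw [← map_pow, ← map_pow, ← map_add, ← map_intCast f]
    exact congrArg f (Subtype.ext (by simpa using h.tr))
  have e2 : f ⟨α, h.int_l⟩ * f ⟨β, h.symm.int_l⟩ = Q := by
    rw [← map_mul, ← map_intCast f]
    exact congrArg f (Subtype.ext (by simpa using h.nm))
  refine ⟨k, inferInstance, inferInstance, f, fun ⟨a, b⟩ => ?_, e1, e2⟩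
  obtain ⟨u, v, e⟩ := hc
  have := congrArg (Int.cast : ℤ → k) e
  push_cast at this
  rw [← e1, ← e2, a, b] at this
  simp at this

lemma not_dvd (h : Pair α β T Q) (hc : IsCoprime T Q) {q : ℕ} (hq : q.Prime) {j : ℕ} (hj : 0 < j)
    {A : ℤ} (hA : α ^ j + β ^ j = A) : ¬((q : ℤ) ∣ A ∧ (q : ℤ) ∣ Q) := by
  rintro ⟨a, b⟩
  obtain ⟨k, _, _, f, h0, -, e2⟩ := h.img hc hq
  have e3 : f ⟨α, h.int_l⟩ ^ j + f ⟨β, h.symm.int_l⟩ ^ j = A := by
    rw [← map_pow, ← map_pow, ← map_add, ← map_intCast f]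
    exact congrArg f (Subtype.ext (by simpa using hA))
  rw [(CharP.intCast_eq_zero_iff k q _).2 a] at e3
  rw [(CharP.intCast_eq_zero_iff k q _).2 b] at e2
  rcases mul_eq_zero.1 e2 with e | e
  · rw [e, zero_pow hj.ne', zero_add] at e3
    exact h0 ⟨e, pow_eq_zero_iff hj.ne' |>.1 e3⟩
  · rw [e, zero_pow hj.ne', add_zero] at e3
    exact h0 ⟨pow_eq_zero_iff hj.ne' |>.1 e3, e⟩

lemma prime_cy (h : Pair α β T Q) (hc : IsCoprime T Q) {q n : ℕ} (hq : q.Prime) (hn : 0 < n)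
    {m : ℤ} (hm : cy α β n = m) (hd : (q : ℤ) ∣ m) (hqn : ¬q ∣ n) : n ∣ q - 1 ∨ n ∣ q + 1 := by
  have : Fact q.Prime := ⟨hq⟩
  obtain ⟨k, _, _, f, h0, e1, e2⟩ := h.img hc hq
  set a := f ⟨α, h.int_l⟩ with ha
  set b := f ⟨β, h.symm.int_l⟩ with hb
  have : NeZero (n : k) := ⟨fun h0 => hqn ((CharP.cast_eq_zero_iff k q n).mp h0)⟩
  have e3 : ∏ ζ ∈ (primitiveRoots n ℂ).attach, (a - f ⟨ζ, int_root hn ζ.2⟩ * b) = 0 := by
    rw [← (CharP.intCast_eq_zero_iff k q _).2 hd, ← map_intCast f]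
    simp only [ha, hb, ← map_mul, ← map_sub, ← map_prod]
    refine congrArg f (Subtype.ext ?_)
    simp only [SubmonoidClass.coe_finsetProd, AddSubgroupClass.coe_sub, MulMemClass.coe_mul,
      SubringClass.coe_intCast]
    rw [← hm, cy, ← prod_attach (primitiveRoots n ℂ) fun ζ => α - ζ * β]
  obtain ⟨ζ, -, e4⟩ := prod_eq_zero_iff.1 e3
  set z := f ⟨ζ, int_root hn ζ.2⟩ with hz
  have p1 : IsPrimitiveRoot z n := by
    rw [← isRoot_cyclotomic_iff, IsRoot.def, hz, ← NSW77.hom_cyc, ← map_zero f]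
    refine congrArg f (Subtype.ext ?_)
    have := NSW77.hom_cyc (integralClosure ℤ ℂ).val.toRingHom n ⟨ζ, int_root hn ζ.2⟩
    exact this.trans ((isPrimitiveRoot_of_mem_primitiveRoots ζ.2).isRoot_cyclotomic hn)
  have e5 : a = z * b := sub_eq_zero.1 e4
  have b0 : b ≠ 0 := fun e => h0 ⟨by rw [e5, e, mul_zero], e⟩
  have z0 : z ≠ 0 := p1.ne_zero hn.ne'
  have e6 : (z ^ 2 + 1) * (Q : k) = z * T := by rw [← e1, ← e2, e5]; ring
  have e7 := congrArg (frobenius k q) e6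
  simp only [map_mul, map_add, map_pow, map_one, map_intCast] at e7
  rw [frobenius_def] at e7
  have Q0 : (Q : k) ≠ 0 := by rw [← e2, e5]; exact mul_ne_zero (mul_ne_zero z0 b0) b0
  have e8 : (z ^ q - z) * (z ^ q * z - 1) = 0 :=
    mul_right_cancel₀ Q0 (by linear_combination z * e7 - z ^ q * e6)
  rcases mul_eq_zero.1 e8 with e | e
  · refine Or.inl (p1.dvd_of_pow_eq_one _ (mul_right_cancel₀ z0 ?_))
    rw [← pow_succ, Nat.sub_add_cancel hq.one_le, one_mul, sub_eq_zero.1 e]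
  · exact Or.inr (p1.dvd_of_pow_eq_one _ (by rw [pow_succ, sub_eq_zero.1 e]))

lemma one_lt (h : Pair α β T Q) (hQ : Q ≠ 0) : 1 < max ‖α‖ ‖β‖ := by
  by_contra! H
  have a := (le_max_left _ _).trans H
  have b := (le_max_right _ _).trans H
  have q1 : |(Q : ℝ)| ≤ 1 := by
    rw [← Complex.norm_intCast, ← h.nm, norm_mul]
    exact mul_le_one₀ a (norm_nonneg _) b
  have t2 : |(T : ℝ)| ≤ 2 := by
    rw [← Complex.norm_intCast, ← h.tr]
    refine (norm_add_le _ _).trans ?_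
    rw [norm_pow, norm_pow]
    nlinarith [norm_nonneg α, norm_nonneg β]
  have q2 : |Q| ≤ 1 := by exact_mod_cast q1
  have t3 : |T| ≤ 2 := by exact_mod_cast t2
  have q3 : Q ^ 2 = 1 := by
    obtain ⟨c, d⟩ := abs_le.1 q2
    interval_cases Q <;> simp_all
  have t4 : (T ^ 2 - 4) * (T * (T ^ 2 - 1) * (T ^ 2 - 3)) ^ 2 = 0 := by
    obtain ⟨c, d⟩ := abs_le.1 t3
    interval_cases T <;> norm_num
  have q4 : (α * β) ^ 2 = 1 := by rw [h.nm]; exact_mod_cast q3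
  have t5 : ((T : ℂ) ^ 2 - 4) * (T * (T ^ 2 - 1) * (T ^ 2 - 3)) ^ 2 = 0 := by exact_mod_cast t4
  have t6 : (α ^ 12 - β ^ 12) ^ 2 = ((T : ℂ) ^ 2 - 4 * (α * β) ^ 2) *
      (T * (T ^ 2 - (α * β) ^ 2) * (T ^ 2 - 3 * (α * β) ^ 2)) ^ 2 := by rw [← h.tr]; ring
  rw [q4, mul_one, mul_one, t5] at t6
  exact h.ne 12 (by norm_num) (sub_eq_zero.1 (pow_eq_zero_iff two_ne_zero |>.1 t6))

lemma log_cy (h : Pair α β T Q) (L : ℝ) {n : ℕ} (hn : 0 < n) {B : ℝ}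
    (hB : ∀ j, j ∣ n → |Real.log ‖α ^ j - β ^ j‖ - j * L| ≤ B) :
    n.totient * L - n.divisors.card * B ≤ Real.log ‖cy α β n‖ := by
  have e := (ArithmeticFunction.sum_eq_iff_sum_mul_moebius_eq
    (f := fun d => Real.log ‖cy α β d‖ - d.totient * L)
    (g := fun j => Real.log ‖α ^ j - β ^ j‖ - j * L)).1 (fun j hj => by
      rw [sum_sub_distrib, ← sum_mul, ← Nat.cast_sum, Nat.sum_totient, ← prod_cy α β hj, norm_prod,
        Real.log_prod fun d hd => norm_ne_zero_iff.2 (h.cy_ne (Nat.pos_of_mem_divisors hd))]) n hn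
  have e2 := (abs_sum_le_sum_abs _ _).trans (sum_le_card_nsmul n.divisorsAntidiagonal
    (fun x => |((ArithmeticFunction.moebius x.1 : ℤ) : ℝ) *
      (Real.log ‖α ^ x.2 - β ^ x.2‖ - x.2 * L)|) B fun x hx => by
      have a := hB x.2 (Nat.dvd_of_mem_divisors (Nat.snd_mem_divisors_of_mem_antidiagonal hx))
      have b : |((ArithmeticFunction.moebius x.1 : ℤ) : ℝ)| ≤ 1 := by
        exact_mod_cast ArithmeticFunction.abs_moebius_le_one
      rw [abs_mul]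
      nlinarith [abs_nonneg (Real.log ‖α ^ x.2 - β ^ x.2‖ - x.2 * L)])
  rw [e, ← Nat.map_div_right_divisors, card_map, nsmul_eq_mul] at e2
  linarith [(abs_le.1 e2).1]

end Pair

lemma card_div (n : ℕ) : (n.divisors.card : ℝ) ≤ 2 * √n := by
  have h1 : n.divisors ⊆ Icc 1 n.sqrt ∪ (Icc 1 n.sqrt).image (n / ·) := fun d hd => by
    obtain ⟨⟨e, he⟩, h0⟩ := Nat.mem_divisors.1 hd
    have d0 : 0 < d := Nat.pos_of_mem_divisors hd
    have e0 : 0 < e := Nat.pos_of_ne_zero fun x => h0 (by rw [he, x, mul_zero])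
    rcases Nat.le_sqrt_of_eq_mul he with a | a
    · exact mem_union_left _ (mem_Icc.2 ⟨d0, a⟩)
    · exact mem_union_right _ (mem_image.2 ⟨e, mem_Icc.2 ⟨e0, a⟩, by
        rw [he, Nat.mul_div_cancel _ e0]⟩)
  have h2 := (card_le_card h1).trans ((card_union_le _ _).trans
    (Nat.add_le_add_left card_image_le _))
  rw [Nat.card_Icc, Nat.add_sub_cancel] at h2
  have h3 : (n.divisors.card : ℝ) ≤ n.sqrt + n.sqrt := by exact_mod_cast h2
  linarith [Real.nat_sqrt_le_real_sqrt (a := n)]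

end Pool.Agent.Lib.NSW91
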