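import Pool.Agent.Lib.NSW91.Main
import Pool.Agent.Lib.Szpiro98.Main4
import Pool.Agent.Lib.Szpiro98.Qr5
import Pool.Agent.Lib.Szpiro98.LocQ5
import Pool.Agent.Lib.Szpiro98.Qsup5

/-! The unconditional theorem. -/

set_option autoImplicit false

open Finset

namespace Pool.Agent.Lib.NSW91
open Pool.Agent.Szpiro98

theorem quad3 : ∃ C δ : ℝ, 1 ≤ C ∧ 0 < δ ∧ δ ≤ 1 ∧ V5.Quad3 (V4.bnd C δ) := by
  obtain ⟨C1, h1⟩ := locp'
  obtain ⟨C2, h2⟩ := loci'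
  obtain ⟨C3, h3⟩ := V3.locq'
  obtain ⟨δ1, C4, a0, a1, h4⟩ := V4.loct'
  obtain ⟨δ2, C5, b0, -, h5⟩ := V5.locqt V4.aux' V4.mid' V5.qsup
  obtain ⟨C, c0, c1, c2, c3, c4, c5⟩ :
      ∃ C : ℝ, 10 ≤ C ∧ C1 ≤ C ∧ C2 ≤ C ∧ C3 ≤ C ∧ C4 ≤ C ∧ C5 ≤ C :=
    ⟨max (max (max 10 C1) (max C2 C3)) (max C4 C5), by simp⟩
  obtain ⟨p1, p2⟩ := V4.comb (by linarith) (h1 C c1) (h2 C c2)
    (V5.locT_mono (by linarith) (min_le_left δ1 δ2) (h4 C c4))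
  have p3 := V5.combQ (by linarith) (h3 C c3)
    (V5.locQT_mono (by linarith) (min_le_right δ1 δ2) (h5 C c5))
  exact ⟨C, _, by linarith, lt_min a0 b0, (min_le_left _ _).trans a1,
    V5.quad3 _ (V4.quad _ p1 p2) p3⟩

/-- a prime that divides the cyclotomic value divides every integral quotient -/
lemma Pair.dvd_quot {α β : ℂ} {T Q : ℤ} (h : Pair α β T Q) {n d q : ℕ} (hn : 0 < n) (hq : q.Prime)
    {m x : ℤ} (hm : cy α β n = q * m) (hd : d ∣ n) (hlt : d < n)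
    (hx : α ^ n - β ^ n = x * (α ^ d - β ^ d)) : (q : ℤ) ∣ x := by
  have d0 := Nat.pos_of_dvd_of_pos hd hn
  have hs : d.divisors ⊆ n.divisors := Nat.divisors_subset_of_dvd hn.ne' hd
  have hn' : n ∈ n.divisors \ d.divisors := mem_sdiff.2 ⟨Nat.mem_divisors_self n hn.ne',
    fun e => absurd (Nat.divisor_le e) (by omega)⟩
  rw [← prod_cy α β hn, ← prod_sdiff hs, prod_cy α β d0, ← mul_prod_erase _ _ hn', hm] at hx
  have e := mul_right_cancel₀ (sub_ne_zero.2 (h.ne d d0)) hx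
  have q0 : (q : ℂ) ≠ 0 := by exact_mod_cast hq.ne_zero
  have i : IsIntegral ℤ ((m : ℂ) * ∏ e ∈ (n.divisors \ d.divisors).erase n, cy α β e) :=
    (isIntegral_intCast m).mul (IsIntegral.prod _ fun e he => IsIntegral.prod _ fun ζ hζ =>
      h.int_l.sub ((Pair.int_root (Nat.pos_of_mem_divisors (mem_sdiff.1 (mem_erase.1 he).2).1)
        hζ).mul h.symm.int_l))
  have e2 : (m : ℂ) * ∏ e ∈ (n.divisors \ d.divisors).erase n, cy α β e =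
      algebraMap ℚ ℂ ((x : ℚ) / q) := by
    simp only [map_div₀, map_intCast, map_natCast]
    rw [eq_div_iff q0, ← e]
    ring
  rw [e2, isIntegral_algebraMap_iff (algebraMap ℚ ℂ).injective] at i
  obtain ⟨y, hy⟩ := IsIntegrallyClosed.isIntegral_iff.1 i
  have q1 : (q : ℚ) ≠ 0 := by exact_mod_cast hq.ne_zero
  rw [eq_intCast, eq_div_iff q1] at hy
  exact ⟨y, by exact_mod_cast hy.symm.trans (mul_comm _ _)⟩

theorem power_saving : ∃ δ : ℝ, 0 < δ ∧ ∀ (α β : ℂ) (R Q : ℤ), (α + β) ^ 2 = R → α * β = Q →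
    Q ≠ 0 → (∀ k : ℕ, 0 < k → (α / β) ^ k ≠ 1) → ∃ N : ℕ, ∀ n : ℕ, N ≤ n →
      ∃ q : ℕ, q.Prime ∧ (n : ℝ) ^ (1 + δ) < q ∧
        (∃ m : ℤ, ∏ ζ ∈ primitiveRoots n ℂ, (α - ζ * β) = q * m) ∧
        ∀ (d : ℕ) (x : ℤ), d ∣ n → d < n → α ^ n - β ^ n = x * (α ^ d - β ^ d) → (q : ℤ) ∣ x := by
  obtain ⟨C, δ, hC, δ0, δ1, hq⟩ := quad3
  refine ⟨δ / 3, by linarith, fun α β R Q hR hQ Q0 hu => ?_⟩
  have b0 : β ≠ 0 := by
    rintro rfl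
    exact Q0 (by exact_mod_cast (hQ.symm.trans (mul_zero α)))
  have P : Pair α β (R - 2 * Q) Q := ⟨by push_cast; linear_combination hR - 2 * hQ, hQ,
    fun k hk e => hu k hk (by rw [div_pow, e, div_self (pow_ne_zero _ b0)])⟩
  obtain ⟨N, hN⟩ := stewart hC δ0 δ1 hq α β R Q hR hQ Q0 hu
  refine ⟨N + 1, fun n hn => ?_⟩
  obtain ⟨q, m, q1, q2, q3⟩ := hN n (by omega)
  exact ⟨q, q1, q2, ⟨m, q3⟩, fun d x hd hlt hx => P.dvd_quot (by omega) q1 q3 hd hlt hx⟩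

end Pool.Agent.Lib.NSW91
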